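import Mathlib
import Pool.Agent.Q254.KneserMain

/-!
# `KG(8,3)` has no orientation in which every shortest odd cycle is alternating
-/

namespace Pool.Agent.Results.MP_573991_co.KneserEightThree

open Pool.Agent.Q254.Kneser

theorem result :
    (∀ o : {s : Finset (Fin 8) // s.card = 3} → {s : Finset (Fin 8) // s.card = 3} → Prop,
      IsOrientation (KG 8 3) o →
        ∃ c : ZMod 5 → {s : Finset (Fin 8) // s.card = 3},
          IsShortestOddCyc (KG 8 3) 5 c ∧ ¬ IsAlternating o c) ∧
    ¬ Statement := by
  refine ⟨main, fun h => ?_⟩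
  obtain ⟨o, ho, hc⟩ := h 8 3 (by norm_num) (by norm_num)
  obtain ⟨c, h1, h2⟩ := main o ho
  exact h2 (hc 5 c h1)

end Pool.Agent.Results.MP_573991_co.KneserEightThree
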